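import Pool.Agent.H31.CN.T2

set_option autoImplicit false

namespace Pool.Agent.H99.CN.LCx

open Finset

/-- average over a period -/
noncomputable def avg (a : ℕ) (f : ℤ → ℝ) : ℝ := (1 / (a : ℝ)) * ∑ C ∈ range a, f C

/-- periodicity -/
def Per (a : ℕ) (f : ℤ → ℝ) : Prop := ∀ x, f (x + a) = f x

lemma Per.mul_nat {a : ℕ} {f : ℤ → ℝ} (h : Per a f) (k : ℕ) : ∀ x, f (x + (a * k : ℕ)) = f x := by
  induction k with
  | zero => intro x; simp
  | succ k ih =>
    intro x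
    have : x + ((a * (k + 1) : ℕ) : ℤ) = (x + ((a * k : ℕ) : ℤ)) + a := by
      push_cast; ring
    rw [this, h, ih]

lemma Per.mod {a : ℕ} {f : ℤ → ℝ} (h : Per a f) (n : ℕ) : f ((n % a : ℕ) : ℤ) = f (n : ℤ) := by
  have h1 := h.mul_nat (n / a) ((n % a : ℕ) : ℤ)
  have h2 : (((n % a : ℕ) : ℤ) + ((a * (n / a) : ℕ) : ℤ)) = (n : ℤ) := by
    exact_mod_cast Nat.mod_add_div n a
  rw [h2] at h1
  exact h1.symm

lemma Per.of_dvd {a b : ℕ} {f : ℤ → ℝ} (h : Per a f) (hab : a ∣ b) : Per b f := by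
  obtain ⟨k, rfl⟩ := hab
  intro x
  exact h.mul_nat k x

lemma Per.mul {a : ℕ} {f g : ℤ → ℝ} (h : Per a f) (h' : Per a g) :
    Per a (fun x => f x * g x) := by
  intro x
  simp only
  rw [h, h']

lemma avg_const (a : ℕ) (ha : 1 ≤ a) (c : ℝ) : avg a (fun _ => c) = c := by
  unfold avg
  have : (a : ℝ) ≠ 0 := by positivity
  simp
  field_simp

lemma avg_add (a : ℕ) (f g : ℤ → ℝ) : avg a (fun x => f x + g x) = avg a f + avg a g := by
  unfold avg
  rw [sum_add_distrib]; ring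

lemma avg_mul_period {a : ℕ} (ha : 1 ≤ a) {f : ℤ → ℝ} (h : Per a f) (k : ℕ) (hk : 1 ≤ k) :
    avg (a * k) f = avg a f := by
  unfold avg
  have h1 : ∀ k : ℕ, ∑ C ∈ range (a * k), f C = k * ∑ C ∈ range a, f C := by
    intro k
    induction k with
    | zero => simp
    | succ k ih =>
      rw [Nat.mul_succ, sum_range_add, ih]
      have : ∀ x ∈ range a, f (((a * k + x : ℕ)) : ℤ) = f x := by
        intro x _
        have h2 := h.mul_nat k (x : ℤ)
        rw [← h2]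
        congr 1
        push_cast; ring
      have h3 : ∑ x ∈ range a, f (((a * k + x : ℕ)) : ℤ) = ∑ x ∈ range a, f x :=
        sum_congr rfl this
      rw [h3]
      push_cast; ring
  rw [h1]
  have ha' : (a : ℝ) ≠ 0 := by positivity
  have hk' : (k : ℝ) ≠ 0 := by positivity
  push_cast
  field_simp

lemma avg_of_dvd {a b : ℕ} (hb : 1 ≤ b) {f : ℤ → ℝ} (h : Per a f) (hab : a ∣ b) :
    avg b f = avg a f := by
  obtain ⟨k, rfl⟩ := hab
  have hk : 1 ≤ k := Nat.one_le_iff_ne_zero.mpr (by rintro rfl; simp at hb)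
  have ha : 1 ≤ a := Nat.one_le_iff_ne_zero.mpr (by rintro rfl; simp at hb)
  exact avg_mul_period ha h k hk

lemma avg_mul_coprime {a b : ℕ} (ha : 1 ≤ a) (hb : 1 ≤ b) (hab : Nat.Coprime a b)
    {u v : ℤ → ℝ} (hu : Per a u) (hv : Per b v) :
    avg (a * b) (fun x => u x * v x) = avg a u * avg b v := by
  unfold avg
  have key : ∑ C ∈ range (a * b), u C * v C =
      ∑ x ∈ (range a) ×ˢ (range b), u x.1 * v x.2 := by
    refine sum_nbij (fun C : ℕ => ((C % a, C % b) : ℕ × ℕ)) ?_ ?_ ?_ ?_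
    · intro C _
      simp only [mem_product, mem_range]
      exact ⟨Nat.mod_lt _ ha, Nat.mod_lt _ hb⟩
    · intro x hx y hy hxy
      simp only [Prod.mk.injEq] at hxy
      simp only [coe_range, Set.mem_Iio] at hx hy
      have h1 : x ≡ y [MOD a] := hxy.1
      have h2 : x ≡ y [MOD b] := hxy.2
      have h3 : x ≡ y [MOD (a * b)] := (Nat.modEq_and_modEq_iff_modEq_mul hab).mp ⟨h1, h2⟩
      exact Nat.ModEq.eq_of_lt_of_lt h3 hx hy
    · refine Finset.surjOn_of_injOn_of_card_le _ ?_ ?_ ?_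
      · intro C _
        simp only [coe_product, coe_range, Set.mem_prod, Set.mem_Iio]
        exact ⟨Nat.mod_lt _ ha, Nat.mod_lt _ hb⟩
      · intro x hx y hy hxy
        simp only [Prod.mk.injEq] at hxy
        simp only [coe_range, Set.mem_Iio] at hx hy
        have h1 : x ≡ y [MOD a] := hxy.1
        have h2 : x ≡ y [MOD b] := hxy.2
        have h3 : x ≡ y [MOD (a * b)] := (Nat.modEq_and_modEq_iff_modEq_mul hab).mp ⟨h1, h2⟩
        exact Nat.ModEq.eq_of_lt_of_lt h3 hx hy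
      · simp
    · intro C _
      simp only
      rw [hu.mod, hv.mod]
  rw [key, sum_product]
  have : ∑ x ∈ range a, ∑ y ∈ range b, u ((x, y) : ℕ × ℕ).1 * v ((x, y) : ℕ × ℕ).2 =
      (∑ x ∈ range a, u x) * ∑ y ∈ range b, v y := by
    rw [sum_mul_sum]
  rw [this]
  push_cast
  rw [one_div, one_div, one_div, mul_inv]
  ring


lemma avg_prod (P : Finset ℕ) (q : ℕ) (hq : 1 ≤ q) (w : ℤ → ℝ) (hw : Per q w) (g : ℕ → ℕ)
    (F : ℕ → ℤ → ℝ) (hg : ∀ p ∈ P, 1 ≤ g p) (hF : ∀ p ∈ P, Per (g p) (F p))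
    (hco : ∀ p ∈ P, Nat.Coprime q (g p))
    (hpw : ∀ p ∈ P, ∀ p' ∈ P, p ≠ p' → Nat.Coprime (g p) (g p')) :
    1 ≤ ∏ p ∈ P, g p ∧ Per (q * ∏ p ∈ P, g p) (fun C => w C * ∏ p ∈ P, F p C) ∧
      Per (∏ p ∈ P, g p) (fun C => ∏ p ∈ P, F p C) ∧
      avg (q * ∏ p ∈ P, g p) (fun C => w C * ∏ p ∈ P, F p C) =
        avg q w * ∏ p ∈ P, avg (g p) (F p) := by
  induction P using Finset.induction_on with
  | empty =>
    simp only [prod_empty, mul_one]
    refine ⟨le_refl _, hw, ?_, trivial⟩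
    intro x; rfl
  | insert a P ha ih =>
    obtain ⟨h1, h2, h3, h4⟩ := ih (fun p hp => hg p (mem_insert_of_mem hp))
      (fun p hp => hF p (mem_insert_of_mem hp)) (fun p hp => hco p (mem_insert_of_mem hp))
      (fun p hp p' hp' => hpw p (mem_insert_of_mem hp) p' (mem_insert_of_mem hp'))
    have hga := hg a (mem_insert_self a P)
    have hFa := hF a (mem_insert_self a P)
    have hcop : Nat.Coprime (q * ∏ p ∈ P, g p) (g a) := by
      refine Nat.Coprime.mul_left (hco a (mem_insert_self a P)) ?_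
      refine Nat.Coprime.prod_left (fun p hp => ?_)
      exact hpw p (mem_insert_of_mem hp) a (mem_insert_self a P) (by rintro rfl; exact ha hp)
    simp only [prod_insert ha]
    refine ⟨Nat.one_le_iff_ne_zero.mpr (Nat.mul_ne_zero (by omega) (by omega)), ?_, ?_, ?_⟩
    · have e1 : (fun C => w C * (F a C * ∏ p ∈ P, F p C)) =
          fun C => F a C * (w C * ∏ p ∈ P, F p C) := by
        funext C; ring
      rw [e1]
      refine Per.mul (Per.of_dvd hFa ?_) (Per.of_dvd h2 ?_)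
      · exact Dvd.intro_left (q * ∏ p ∈ P, g p) (by ring)
      · exact Dvd.intro_left (g a) (by ring)
    · refine Per.mul (Per.of_dvd hFa ?_) (Per.of_dvd h3 ?_)
      · exact Dvd.intro _ rfl
      · exact Dvd.intro_left _ rfl
    · have e1 : (fun C => w C * (F a C * ∏ p ∈ P, F p C)) =
          fun C => (w C * ∏ p ∈ P, F p C) * F a C := by
        funext C; ring
      have e2 : q * (g a * ∏ p ∈ P, g p) = (q * ∏ p ∈ P, g p) * g a := by ring
      rw [e1, e2, avg_mul_coprime (Nat.one_le_iff_ne_zero.mpr (Nat.mul_ne_zero (by omega)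
        (by omega))) hga hcop h2 hFa, h4]
      ring

open Pool.Agent.H31.CN

lemma count_one (n : ℕ) (hn : 1 ≤ n) (a : ℤ) :
    ∑ C ∈ range n, (if (n : ℤ) ∣ a + (C : ℤ) then (1 : ℝ) else 0) = 1 := by
  have hn' : (0 : ℤ) < n := by exact_mod_cast hn
  have h0 : 0 ≤ (-a) % (n : ℤ) := Int.emod_nonneg _ hn'.ne'
  have h1 : (-a) % (n : ℤ) < n := Int.emod_lt_of_pos _ hn'
  obtain ⟨c, hc⟩ := Int.eq_ofNat_of_zero_le h0
  have hdiv : (n : ℤ) ∣ a + (c : ℤ) := by
    rw [← hc]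
    have := Int.emod_add_mul_ediv (-a) n
    refine ⟨-((-a) / n), ?_⟩
    linarith
  have hcn : c < n := by
    rw [hc] at h1; exact_mod_cast h1
  rw [Finset.sum_eq_single c]
  · rw [if_pos hdiv]
  · intro b hb hbc
    rw [if_neg]
    intro h
    apply hbc
    have h2 : (n : ℤ) ∣ (b : ℤ) - c := by
      have := dvd_sub h hdiv
      have e : a + (b : ℤ) - (a + c) = b - c := by ring
      rwa [e] at this
    have h3 : (c : ℤ) ≡ b [ZMOD n] := (Int.modEq_iff_dvd).mpr h2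
    have h4 : c ≡ b [MOD n] := (Int.natCast_modEq_iff).mp h3
    exact (Nat.ModEq.eq_of_lt_of_lt h4 hcn (mem_range.mp hb)).symm
  · intro h
    exact absurd (mem_range.mpr hcn) h

lemma nrt_per (n : ℕ) (A B : ℤ) : Per n (fun C => (nrt n A B C : ℝ)) := by
  intro x
  simp only [nrt]
  congr 2
  apply filter_congr
  intro j _
  have e : A * (j : ℤ) ^ 2 + B * (j : ℤ) + (x + n) = (A * (j : ℤ) ^ 2 + B * (j : ℤ) + x) + n := by
    ring
  rw [e]
  exact (dvd_add_self_right)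

lemma nrt_avg (n : ℕ) (hn : 1 ≤ n) (A B : ℤ) : avg n (fun C => (nrt n A B C : ℝ)) = 1 := by
  unfold avg
  have h : ∑ C ∈ range n, ((nrt n A B (C : ℤ) : ℕ) : ℝ) = n := by
    have h1 : ∀ C ∈ range n, ((nrt n A B (C : ℤ) : ℕ) : ℝ) =
        ∑ j ∈ range n, (if (n : ℤ) ∣ (A * (j : ℤ) ^ 2 + B * (j : ℤ)) + (C : ℤ)
          then (1 : ℝ) else 0) := by
      intro C _
      unfold nrt
      rw [card_filter]
      push_cast
      rfl
    rw [sum_congr rfl h1, sum_comm]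
    have h2 : ∀ j ∈ range n, (∑ C ∈ range n, if (n : ℤ) ∣ (A * (j : ℤ) ^ 2 + B * (j : ℤ)) + (C : ℤ)
          then (1 : ℝ) else 0) = 1 := fun j _ => count_one n hn (A * (j : ℤ) ^ 2 + B * (j : ℤ))
    rw [sum_congr rfl h2]
    simp
  rw [h]
  have : (n : ℝ) ≠ 0 := by positivity
  field_simp

lemma nrt_mul_const (p : ℕ) (A B C : ℤ) : nrt p A B (p * C) = nrt p A B 0 := by
  simp only [nrt]
  congr 1
  apply filter_congr
  intro j _
  rw [add_zero]
  exact (Int.dvd_add_left (Dvd.intro _ rfl))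

/-- the local weight -/
noncomputable def loc (m₁ m₂ A e : ℕ) (B : ℤ) (p : ℕ) (C : ℤ) : ℝ :=
  if p ∣ m₁ ∧ p ∣ m₂ then (N2 p A B C e : ℝ) else (N1 p A B C e : ℝ)

/-- its average -/
noncomputable def lav (m₁ m₂ A e : ℕ) (B : ℤ) (p : ℕ) : ℝ :=
  if p ∣ m₁ ∧ p ∣ m₂ then
          ((if p ^ 2 ∣ A then 1 else 0) +
            (if p ∣ A ∧ p ∣ e then (nrt p ((A / p : ℕ) : ℤ) B 0 : ℝ) else 0) +
            (if p ∣ e then 1 else 0) + (if p ^ 2 ∣ e then 1 else 0) : ℝ)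
        else ((if p ∣ A then 1 else 0) + (if p ∣ e then 1 else 0) : ℝ)

lemma Nw_cast (m₁ m₂ A e : ℕ) (B C : ℤ) :
    (Nw m₁ m₂ A B C e : ℝ) = ∏ p ∈ (m₁ * m₂).primeFactors, loc m₁ m₂ A e B p C := by
  unfold Nw loc
  push_cast
  apply prod_congr rfl
  intro p _
  split_ifs <;> rfl

lemma per_add {a : ℕ} {f g : ℤ → ℝ} (h : Per a f) (h' : Per a g) :
    Per a (fun x => f x + g x) := by
  intro x
  simp only
  rw [h, h']

lemma per_const (a : ℕ) (c : ℝ) : Per a (fun _ => c) := fun _ => rfl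

lemma ite_part (b n : ℕ) (hn : 1 ≤ n) (hb : 1 ≤ b) (P : Prop) [Decidable P] (hP : P → n ∣ b)
    (A B : ℤ) :
    Per b (fun C => if P then (nrt n A B C : ℝ) else 0) ∧
    avg b (fun C => if P then (nrt n A B C : ℝ) else 0) = if P then 1 else 0 := by
  by_cases h : P
  · simp only [if_pos h]
    refine ⟨(nrt_per n A B).of_dvd (hP h), ?_⟩
    rw [avg_of_dvd hb (nrt_per n A B) (hP h), nrt_avg n hn]
  · simp only [if_neg h]
    exact ⟨per_const _ _, avg_const b hb 0⟩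

lemma loc_spec (m₁ m₂ A e : ℕ) (B : ℤ) (p : ℕ) (hp : 1 ≤ p) (he : 1 ≤ e) :
    Per (Nat.gcd (p ^ 2) e) (loc m₁ m₂ A e B p) ∧
    avg (Nat.gcd (p ^ 2) e) (loc m₁ m₂ A e B p) = lav m₁ m₂ A e B p := by
  set b := Nat.gcd (p ^ 2) e with hb
  have hb1 : 1 ≤ b := Nat.gcd_pos_of_pos_right _ he
  have d1 : p ∣ e → p ∣ b := fun h => Nat.dvd_gcd (Dvd.intro_left p (by ring)) h
  have d2 : p ^ 2 ∣ e → p ^ 2 ∣ b := fun h => Nat.dvd_gcd (dvd_refl _) h
  by_cases h : p ∣ m₁ ∧ p ∣ m₂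
  · have e1 : loc m₁ m₂ A e B p = fun C => ((((if p ^ 2 ∣ A then 1 else 0) +
            (if p ∣ A ∧ p ∣ e then (nrt p ((A / p : ℕ) : ℤ) B 0 : ℝ) else 0)) +
            (if p ∣ e then (nrt p A B C : ℝ) else 0)) +
            (if p ^ 2 ∣ e then (nrt (p ^ 2) A B C : ℝ) else 0)) := by
      funext C
      unfold loc
      rw [if_pos h]
      unfold N2
      rw [nrt_mul_const]
      push_cast
      rfl
    obtain ⟨p3, a3⟩ := ite_part b p hp hb1 (p ∣ e) d1 A B
    obtain ⟨p4, a4⟩ := ite_part b (p ^ 2) (Nat.one_le_pow _ _ hp) hb1 (p ^ 2 ∣ e) d2 A B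
    rw [e1]
    refine ⟨per_add (per_add (per_const _ _) p3) p4, ?_⟩
    rw [avg_add, avg_add, a3, a4, avg_const b hb1]
    unfold lav
    rw [if_pos h]
  · have e1 : loc m₁ m₂ A e B p = fun C => ((if p ∣ A then 1 else 0) +
            (if p ∣ e then (nrt p A B C : ℝ) else 0)) := by
      funext C
      unfold loc
      rw [if_neg h]
      unfold N1
      push_cast
      rfl
    obtain ⟨p3, a3⟩ := ite_part b p hp hb1 (p ∣ e) d1 A B
    rw [e1]
    refine ⟨per_add (per_const _ _) p3, ?_⟩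
    rw [avg_add, a3, avg_const b hb1]
    unfold lav
    rw [if_neg h]

end Pool.Agent.H99.CN.LCx

namespace Pool.Agent.H99.CN

open Pool.Agent.H31.CN Finset LCx

theorem pf_LC : T_LC := by
  intro q m₁ m₂ A e B w hq hA he hm₁ hm₂ hc₁ hc₂ hw
  set P := (m₁ * m₂).primeFactors with hP
  set g : ℕ → ℕ := fun p => Nat.gcd (p ^ 2) e with hg
  have hprime : ∀ p ∈ P, Nat.Prime p := fun p hp => Nat.prime_of_mem_primeFactors hp
  have hdvd : ∀ p ∈ P, p ∣ m₁ * m₂ := fun p hp => Nat.dvd_of_mem_primeFactors hp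
  have hcopq : ∀ p ∈ P, Nat.Coprime q (p ^ 2) := by
    intro p hp
    have : Nat.Coprime q (m₁ * m₂) := Nat.Coprime.mul_right hc₁ hc₂
    exact (this.coprime_dvd_right (hdvd p hp)).pow_right 2
  have hco : ∀ p ∈ P, Nat.Coprime q (g p) := fun p hp =>
    (hcopq p hp).coprime_dvd_right (Nat.gcd_dvd_left _ _)
  have hpw : ∀ p ∈ P, ∀ p' ∈ P, p ≠ p' → Nat.Coprime (g p) (g p') := by
    intro p hp p' hp' hne
    have h1 : Nat.Coprime p p' := (Nat.coprime_primes (hprime p hp) (hprime p' hp')).mpr hne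
    have h2 : Nat.Coprime (p ^ 2) (p' ^ 2) := Nat.Coprime.pow 2 2 h1
    exact Nat.Coprime.coprime_dvd_left (Nat.gcd_dvd_left _ _)
      (h2.coprime_dvd_right (Nat.gcd_dvd_left _ _))
  have hspec : ∀ p ∈ P, Per (g p) (loc m₁ m₂ A e B p) ∧
      avg (g p) (loc m₁ m₂ A e B p) = lav m₁ m₂ A e B p := fun p hp =>
    loc_spec m₁ m₂ A e B p (hprime p hp).one_lt.le he
  have hg1 : ∀ p ∈ P, 1 ≤ g p := fun p _ => Nat.gcd_pos_of_pos_right _ he
  obtain ⟨h1, h2, h3, h4⟩ := avg_prod P q hq w hw g (loc m₁ m₂ A e B) hg1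
    (fun p hp => (hspec p hp).1) hco hpw
  have hde : ∏ p ∈ P, g p ∣ e := by
    refine Finset.prod_dvd_of_isRelPrime ?_ (fun p _ => Nat.gcd_dvd_right _ _)
    intro p hp p' hp' hne
    exact (Nat.coprime_iff_isRelPrime).mp (hpw p hp p' hp' hne)
  have hfull : Per (q * e) (fun C => w C * ∏ p ∈ P, loc m₁ m₂ A e B p C) :=
    h2.of_dvd (Nat.mul_dvd_mul_left q hde)
  refine ⟨?_, ?_⟩
  · intro C
    have := hfull C
    simp only at this
    rw [Nw_cast, Nw_cast]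
    push_cast at this
    exact this
  · have h5 : avg (q * e) (fun C => w C * ∏ p ∈ P, loc m₁ m₂ A e B p C) =
        avg (q * ∏ p ∈ P, g p) (fun C => w C * ∏ p ∈ P, loc m₁ m₂ A e B p C) :=
      avg_of_dvd (Nat.one_le_iff_ne_zero.mpr (Nat.mul_ne_zero (by omega) (by omega))) h2
        (Nat.mul_dvd_mul_left q hde)
    rw [h4] at h5
    have h6 : (1 / ((q : ℝ) * e)) * ∑ C ∈ Finset.range (q * e), w C * Nw m₁ m₂ A B C e =
        avg (q * e) (fun C => w C * ∏ p ∈ P, loc m₁ m₂ A e B p C) := by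
      unfold avg
      push_cast
      congr 1
      apply sum_congr rfl
      intro C _
      rw [Nw_cast]
    rw [h6, h5]
    have h7 : ∏ p ∈ P, avg (g p) (loc m₁ m₂ A e B p) = ∏ p ∈ P, lav m₁ m₂ A e B p :=
      prod_congr rfl (fun p hp => (hspec p hp).2)
    rw [h7]
    rfl

end Pool.Agent.H99.CN
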