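import Pool.Agent.H31.CN.T2
import Pool.Agent.H99.CN.LC

set_option autoImplicit false

namespace Pool.Agent.H99.CN.LBx

open Finset Pool.Agent.H31.CN Pool.Agent.H99.CN.LCx

lemma nrt_perB (n : ℕ) (A : ℤ) : Per n (fun B => (nrt n A B 0 : ℝ)) := by
  intro x
  simp only [nrt]
  congr 2
  apply filter_congr
  intro j _
  have e : A * (j : ℤ) ^ 2 + (x + n) * (j : ℤ) + 0 =
      (A * (j : ℤ) ^ 2 + x * (j : ℤ) + 0) + n * j := by
    ring
  rw [e]
  exact Int.dvd_add_left (Dvd.intro _ rfl)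

lemma nrt_avgB (p : ℕ) (hp : Nat.Prime p) (A : ℤ) :
    avg p (fun B => (nrt p A B 0 : ℝ)) = 2 - 1 / (p : ℝ) := by
  unfold avg
  have hp1 : 1 ≤ p := hp.one_lt.le
  have h : ∑ B ∈ range p, ((nrt p A (B : ℤ) 0 : ℕ) : ℝ) = 2 * p - 1 := by
    have h1 : ∀ B ∈ range p, ((nrt p A (B : ℤ) 0 : ℕ) : ℝ) =
        ∑ j ∈ range p, (if (p : ℤ) ∣ A * (j : ℤ) ^ 2 + (B : ℤ) * (j : ℤ) + 0
          then (1 : ℝ) else 0) := by
      intro B _
      unfold nrt
      rw [card_filter]
      push_cast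
      rfl
    rw [sum_congr rfl h1, sum_comm]
    have h2 : ∀ j ∈ range p, (∑ B ∈ range p,
        (if (p : ℤ) ∣ A * (j : ℤ) ^ 2 + (B : ℤ) * (j : ℤ) + 0 then (1 : ℝ) else 0)) =
        if j = 0 then (p : ℝ) else 1 := by
      intro j hj
      by_cases hj0 : j = 0
      · subst hj0
        simp
      · rw [if_neg hj0]
        have h3 := count_one p hp1 (A * j)
        refine Eq.trans (sum_congr rfl ?_) h3
        intro B _
        have hnd : ¬ (p : ℤ) ∣ (j : ℤ) := by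
          intro h
          have h' : p ∣ j := by exact_mod_cast h
          exact absurd (Nat.le_of_dvd (Nat.pos_of_ne_zero hj0) h') (not_le.mpr (mem_range.mp hj))
        have hpr : Prime (p : ℤ) := Nat.prime_iff_prime_int.mp hp
        have e : A * (j : ℤ) ^ 2 + (B : ℤ) * (j : ℤ) + 0 = (j : ℤ) * (A * j + B) := by ring
        rw [e]
        have hiff : (p : ℤ) ∣ (j : ℤ) * (A * j + B) ↔ (p : ℤ) ∣ A * j + B := by
          constructor
          · intro h
            exact (hpr.dvd_or_dvd h).resolve_left hnd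
          · intro h
            exact Dvd.dvd.mul_left h _
        simp only [hiff]
    rw [sum_congr rfl h2]
    rw [← Finset.sum_erase_add _ _ (mem_range.mpr hp1 : (0 : ℕ) ∈ range p)]
    have h4 : ∀ j ∈ (range p).erase 0, (if j = 0 then (p : ℝ) else 1) = 1 := by
      intro j hj
      rw [if_neg (ne_of_mem_erase hj)]
    rw [sum_congr rfl h4]
    simp only [sum_const, card_erase_of_mem (mem_range.mpr hp1 : (0 : ℕ) ∈ range p), card_range,
      if_true, nsmul_eq_mul, mul_one]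
    rw [Nat.cast_sub hp1]
    push_cast
    ring
  rw [h]
  have : (p : ℝ) ≠ 0 := by positivity
  field_simp

/-- the local factor -/
noncomputable def fac (m₁ m₂ A e : ℕ) (p : ℕ) (B : ℤ) : ℝ :=
  (if p ∣ m₁ ∧ p ∣ m₂ then
          ((if p ^ 2 ∣ A then 1 else 0) +
            (if p ∣ A ∧ p ∣ e then (nrt p ((A / p : ℕ) : ℤ) B 0 : ℝ) else 0) +
            (if p ∣ e then 1 else 0) + (if p ^ 2 ∣ e then 1 else 0) : ℝ)
        else ((if p ∣ A then 1 else 0) + (if p ∣ e then 1 else 0) : ℝ))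

/-- its average -/
noncomputable def fav (m₁ m₂ A e : ℕ) (p : ℕ) : ℝ :=
    (if p ∣ m₁ ∧ p ∣ m₂ then
      ((if p ^ 2 ∣ A then 1 else 0) +
        (if p ∣ A ∧ p ∣ e then 2 - 1 / (p : ℝ) else 0) +
        (if p ∣ e then 1 else 0) + (if p ^ 2 ∣ e then 1 else 0) : ℝ)
    else ((if p ∣ A then 1 else 0) + (if p ∣ e then 1 else 0) : ℝ))

lemma fac_per (m₁ m₂ A e p b : ℕ) (hb : p ∣ m₁ ∧ p ∣ m₂ → p ∣ A ∧ p ∣ e → p ∣ b) :
    Per b (fac m₁ m₂ A e p) := by
  unfold fac
  by_cases h : p ∣ m₁ ∧ p ∣ m₂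
  · simp only [if_pos h]
    refine per_add (per_add (per_add (per_const _ _) ?_) (per_const _ _)) (per_const _ _)
    by_cases h' : p ∣ A ∧ p ∣ e
    · simp only [if_pos h']
      exact (nrt_perB p _).of_dvd (hb h h')
    · simp only [if_neg h']
      exact per_const _ _
  · simp only [if_neg h]
    exact per_const _ _

lemma fac_avg (m₁ m₂ A e p b : ℕ) (hp : Nat.Prime p) (hb1 : 1 ≤ b)
    (hb : p ∣ m₁ ∧ p ∣ m₂ → p ∣ A ∧ p ∣ e → p ∣ b) :
    avg b (fac m₁ m₂ A e p) = fav m₁ m₂ A e p := by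
  unfold fac fav
  by_cases h : p ∣ m₁ ∧ p ∣ m₂
  · simp only [if_pos h]
    rw [avg_add, avg_add, avg_add, avg_const b hb1, avg_const b hb1, avg_const b hb1]
    by_cases h' : p ∣ A ∧ p ∣ e
    · simp only [if_pos h']
      rw [avg_of_dvd hb1 (nrt_perB p _) (hb h h'), nrt_avgB p hp]
    · simp only [if_neg h']
      rw [avg_const b hb1]
  · simp only [if_neg h]
    rw [avg_const b hb1]

lemma per_prod {P : Finset ℕ} {b : ℕ} {F : ℕ → ℤ → ℝ} (h : ∀ p ∈ P, Per b (F p)) :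
    Per b (fun B => ∏ p ∈ P, F p B) := by
  intro x
  simp only
  exact prod_congr rfl (fun p hp => h p hp x)

end Pool.Agent.H99.CN.LBx

namespace Pool.Agent.H99.CN

open Pool.Agent.H31.CN Finset LCx LBx

theorem pf_LB : T_LB := by
  intro q m₁ m₂ A e w hq hA he hm₁ hm₂ hc₁ hc₂ hw hw2 f hf
  set P := (m₁ * m₂).primeFactors with hP
  have hprime : ∀ p ∈ P, Nat.Prime p := fun p hp => Nat.prime_of_mem_primeFactors hp
  have hdvd : ∀ p ∈ P, p ∣ m₁ * m₂ := fun p hp => Nat.dvd_of_mem_primeFactors hp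
  set g : ℕ → ℕ := fun p => if p ∣ m₁ ∧ p ∣ m₂ then p else 1 with hg
  have hf' : f = fun B => w B * ∏ p ∈ P, fac m₁ m₂ A e p B := by
    funext B
    exact hf B
  have hg1 : ∀ p ∈ P, 1 ≤ g p := by
    intro p hp
    simp only [hg]
    split_ifs
    · exact (hprime p hp).one_lt.le
    · exact le_refl _
  have hgp : ∀ p ∈ P, g p ∣ p := by
    intro p _
    simp only [hg]
    split_ifs
    · exact dvd_refl _
    · exact one_dvd _
  have hcopq : ∀ p ∈ P, Nat.Coprime q p := by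
    intro p hp
    have : Nat.Coprime q (m₁ * m₂) := Nat.Coprime.mul_right hc₁ hc₂
    exact this.coprime_dvd_right (hdvd p hp)
  have hco : ∀ p ∈ P, Nat.Coprime q (g p) := fun p hp =>
    (hcopq p hp).coprime_dvd_right (hgp p hp)
  have hpw : ∀ p ∈ P, ∀ p' ∈ P, p ≠ p' → Nat.Coprime (g p) (g p') := by
    intro p hp p' hp' hne
    have h1 : Nat.Coprime p p' := (Nat.coprime_primes (hprime p hp) (hprime p' hp')).mpr hne
    exact Nat.Coprime.coprime_dvd_left (hgp p hp) (h1.coprime_dvd_right (hgp p' hp'))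
  have hgd : ∀ p ∈ P, p ∣ m₁ ∧ p ∣ m₂ → p ∣ A ∧ p ∣ e → p ∣ g p := by
    intro p _ h _
    simp only [hg, if_pos h]
    exact dvd_refl _
  obtain ⟨h1, h2, h3, h4⟩ := avg_prod P q hq w hw g (fac m₁ m₂ A e) hg1
    (fun p hp => fac_per m₁ m₂ A e p (g p) (hgd p hp)) hco hpw
  have hde : ∏ p ∈ P, g p ∣ Nat.gcd m₁ m₂ := by
    refine Finset.prod_dvd_of_isRelPrime ?_ ?_
    · intro p hp p' hp' hne
      exact (Nat.coprime_iff_isRelPrime).mp (hpw p hp p' hp' hne)
    · intro p _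
      simp only [hg]
      split_ifs with h
      · exact Nat.dvd_gcd h.1 h.2
      · exact one_dvd _
  have hw2' : Per (2 * A) w := by
    intro x
    have := hw2 x
    push_cast
    exact this
  have hfull2 : Per (2 * A) (fun B => w B * ∏ p ∈ P, fac m₁ m₂ A e p B) := by
    refine Per.mul hw2' (per_prod (fun p _ => fac_per m₁ m₂ A e p (2 * A) ?_))
    intro _ h
    exact Dvd.dvd.mul_left h.1 2
  have hM : 1 ≤ q * ∏ p ∈ P, g p :=
    Nat.one_le_iff_ne_zero.mpr (Nat.mul_ne_zero (by omega) (by omega))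
  refine ⟨?_, ?_, ?_⟩
  · intro B
    have := hfull2 B
    rw [hf']
    push_cast at this
    exact this
  · intro B
    have h5 := h2.of_dvd (Nat.mul_dvd_mul_left q hde)
    have := h5 B
    rw [hf']
    exact this
  · have h6 : (1 / (2 * (A : ℝ))) * ∑ B ∈ Finset.range (2 * A), f B =
        avg (2 * A) (fun B => w B * ∏ p ∈ P, fac m₁ m₂ A e p B) := by
      unfold avg
      push_cast
      rw [hf']
    have hbig : 1 ≤ (2 * A) * (q * ∏ p ∈ P, g p) :=
      Nat.one_le_iff_ne_zero.mpr (Nat.mul_ne_zero (by omega) (by omega))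
    rw [h6, ← avg_of_dvd hbig hfull2 (Dvd.intro _ rfl),
      avg_of_dvd hbig h2 (Dvd.intro_left _ rfl), h4]
    have h7 : ∏ p ∈ P, avg (g p) (fac m₁ m₂ A e p) = ∏ p ∈ P, fav m₁ m₂ A e p :=
      prod_congr rfl (fun p hp => fac_avg m₁ m₂ A e p (g p) (hprime p hp) (hg1 p hp) (hgd p hp))
    rw [h7]
    rfl

end Pool.Agent.H99.CN
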