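import Pool.Agent.H31.CN.T2

set_option autoImplicit false

open MeasureTheory Set Filter
open scoped Real Topology

namespace Pool.Agent.H99.CN.ZTHx

open Pool.Agent.H31.CN

lemma exists_min_fin {ι : Type*} (q : ι → ℝ) (F : Finset ι) (h : ∀ i ∈ F, 0 < q i) :
    ∃ c : ℝ, 0 < c ∧ ∀ i ∈ F, c ≤ q i := by
  classical
  induction F using Finset.induction_on with
  | empty => exact ⟨1, one_pos, by simp⟩
  | insert a F ha ih =>
    obtain ⟨c, hc, hF⟩ := ih (fun i hi => h i (Finset.mem_insert_of_mem hi))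
    refine ⟨min c (q a), lt_min hc (h a (Finset.mem_insert_self a F)), ?_⟩
    intro i hi
    rcases Finset.mem_insert.mp hi with rfl | hi
    · exact min_le_right _ _
    · exact (min_le_left _ _).trans (hF i hi)

lemma exists_min {ι : Type*} (q : ι → ℝ) (i0 : ι) (hq : ∀ i, i ≠ i0 → 0 < q i)
    (hs : Summable (fun i => Real.exp (-(2 * π * 1 * q i)))) :
    ∃ c : ℝ, 0 < c ∧ ∀ i, i ≠ i0 → c ≤ q i := by
  classical
  have h1 := hs.tendsto_cofinite_zero
  have h2 : ∀ᶠ i in cofinite, Real.exp (-(2 * π * 1 * q i)) < Real.exp (-1) :=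
    h1.eventually (Iio_mem_nhds (Real.exp_pos _))
  have h3 : {i | ¬ Real.exp (-(2 * π * 1 * q i)) < Real.exp (-1)}.Finite := h2
  obtain ⟨c, hc, hF⟩ := exists_min_fin q (h3.toFinset.erase i0)
    (fun i hi => hq i (Finset.ne_of_mem_erase hi))
  have hpi := Real.pi_pos
  refine ⟨min c (1 / (2 * π)), lt_min hc (by positivity), ?_⟩
  intro i hi
  by_cases h : Real.exp (-(2 * π * 1 * q i)) < Real.exp (-1)
  · refine (min_le_right _ _).trans ?_
    rw [Real.exp_lt_exp] at h
    rw [div_le_iff₀ (by positivity)]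
    nlinarith
  · refine (min_le_left _ _).trans (hF i ?_)
    rw [Finset.mem_erase]
    exact ⟨hi, by simpa using h⟩

section main

variable {ι : Type*} [Countable ι] (q : ι → ℝ) (i0 : ι)

/-- the theta sum -/
noncomputable def Tt (t : ℝ) : ℝ := ∑' i, Real.exp (-(2 * π * t * q i))

lemma hasDeriv (h0 : q i0 = 0) (hq : ∀ i, i ≠ i0 → 0 < q i)
    (hs : ∀ t : ℝ, 0 < t → Summable (fun i => Real.exp (-(2 * π * t * q i)))) (y : ℝ)
    (hy : 1 / 2 < y) :
    HasDerivAt (Tt q) (∑' i, (-(2 * π * q i)) * Real.exp (-(2 * π * y * q i))) y ∧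
      Summable (fun i => (-(2 * π * q i)) * Real.exp (-(2 * π * y * q i))) := by
  have hq0 : ∀ i, 0 ≤ q i := by
    intro i
    by_cases h : i = i0
    · rw [h, h0]
    · exact (hq i h).le
  have hpi := Real.pi_pos
  have hbd : ∀ (i : ι) (z : ℝ), z ∈ Ioi (1 / 2 : ℝ) →
      ‖(-(2 * π * q i)) * Real.exp (-(2 * π * z * q i))‖ ≤
        4 * Real.exp (-(2 * π * (1 / 4) * q i)) := by
    intro i z hz
    rw [mem_Ioi] at hz
    rw [norm_mul, norm_neg, Real.norm_of_nonneg (by have := hq0 i; positivity),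
      Real.norm_of_nonneg (Real.exp_pos _).le]
    set x := 2 * π * q i with hx
    have hx0 : 0 ≤ x := by have := hq0 i; positivity
    have e1 : -(2 * π * z * q i) = -(x * z) := by rw [hx]; ring
    have e2 : -(2 * π * (1 / 4) * q i) = -(x / 4) := by rw [hx]; ring
    rw [e1, e2]
    have h1 : x / 4 ≤ Real.exp (x / 4) := by linarith [Real.add_one_le_exp (x / 4)]
    have h2 : Real.exp (-(x * z)) ≤ Real.exp (-(x / 2)) := by
      apply Real.exp_le_exp.mpr
      nlinarith
    calc x * Real.exp (-(x * z)) ≤ (4 * Real.exp (x / 4)) * Real.exp (-(x / 2)) := by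
          apply mul_le_mul (by linarith) h2 (Real.exp_pos _).le (by positivity)
      _ = 4 * Real.exp (-(x / 4)) := by
          rw [mul_assoc, ← Real.exp_add]
          congr 2
          ring
  have hu : Summable (fun i => 4 * Real.exp (-(2 * π * (1 / 4) * q i))) :=
    (hs (1 / 4) (by norm_num)).mul_left 4
  refine ⟨?_, ?_⟩
  · refine hasDerivAt_tsum_of_isPreconnected (u := fun i => 4 * Real.exp (-(2 * π * (1 / 4) * q i)))
      (g := fun i z => Real.exp (-(2 * π * z * q i)))
      (g' := fun i z => (-(2 * π * q i)) * Real.exp (-(2 * π * z * q i)))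
      (t := Ioi (1 / 2 : ℝ)) (y₀ := 1) hu isOpen_Ioi isPreconnected_Ioi ?_ hbd ?_ ?_ hy
    · intro i z _
      have h1 : HasDerivAt (fun z : ℝ => -(2 * π * z * q i)) (-(2 * π * q i)) z := by
        have h := (hasDerivAt_id z).const_mul (-(2 * π * q i))
        rw [mul_one] at h
        have e : (fun z : ℝ => -(2 * π * z * q i)) = fun z : ℝ => -(2 * π * q i) * id z := by
          funext z
          simp only [id]
          ring
        rw [e]
        exact h
      have h2 := h1.exp
      rw [mul_comm (Real.exp _)] at h2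
      exact h2
    · show (1 : ℝ) ∈ Ioi (1 / 2 : ℝ)
      rw [mem_Ioi]; norm_num
    · exact hs 1 one_pos
  · exact Summable.of_norm_bounded hu (fun i => hbd i y hy)

lemma key_zero (h0 : q i0 = 0) (hq : ∀ i, i ≠ i0 → 0 < q i)
    (hs : ∀ t : ℝ, 0 < t → Summable (fun i => Real.exp (-(2 * π * t * q i))))
    (hT : ∀ t : ℝ, 0 < t → Tt q t⁻¹ = t * Tt q t) :
    Summable (fun i => (1 - 4 * π * q i) * Real.exp (-(2 * π * q i))) ∧
    ∑' i, (1 - 4 * π * q i) * Real.exp (-(2 * π * q i)) = 0 := by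
  obtain ⟨hd, hsum⟩ := hasDeriv q i0 h0 hq hs 1 (by norm_num)
  set D := ∑' i, (-(2 * π * q i)) * Real.exp (-(2 * π * 1 * q i)) with hD
  have h1 : HasDerivAt (fun t : ℝ => Tt q t⁻¹) (D * (-(1 ^ 2 : ℝ)⁻¹)) 1 := by
    have hi : HasDerivAt (fun t : ℝ => t⁻¹) (-(1 ^ 2 : ℝ)⁻¹) 1 := hasDerivAt_inv one_ne_zero
    have hd' : HasDerivAt (Tt q) D ((1 : ℝ)⁻¹) := by rw [inv_one]; exact hd
    exact hd'.comp 1 hi
  have h2 : HasDerivAt (fun t : ℝ => t * Tt q t) (1 * Tt q 1 + 1 * D) 1 :=
    (hasDerivAt_id (1 : ℝ)).mul hd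
  have h3 : (fun t : ℝ => Tt q t⁻¹) =ᶠ[𝓝 1] (fun t : ℝ => t * Tt q t) := by
    filter_upwards [Ioi_mem_nhds (zero_lt_one : (0 : ℝ) < 1)] with t ht
    exact hT t ht
  have h4 := (h2.congr_of_eventuallyEq h3).unique h1
  have h5 : Tt q 1 + 2 * D = 0 := by
    have : (-(1 ^ 2 : ℝ)⁻¹) = -1 := by norm_num
    rw [this] at h4
    linarith
  have hs1 := hs 1 one_pos
  have h6 : Summable (fun i => Real.exp (-(2 * π * 1 * q i)) +
      2 * ((-(2 * π * q i)) * Real.exp (-(2 * π * 1 * q i)))) := hs1.add (hsum.mul_left 2)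
  have h7 : (fun i => (1 - 4 * π * q i) * Real.exp (-(2 * π * q i))) =
      fun i => Real.exp (-(2 * π * 1 * q i)) +
      2 * ((-(2 * π * q i)) * Real.exp (-(2 * π * 1 * q i))) := by
    funext i
    rw [mul_one]
    ring
  rw [h7]
  refine ⟨h6, ?_⟩
  rw [hs1.tsum_add (hsum.mul_left 2), tsum_mul_left]
  exact h5

lemma main_sum [DecidableEq ι] (h0 : q i0 = 0) (hq : ∀ i, i ≠ i0 → 0 < q i)
    (hs : ∀ t : ℝ, 0 < t → Summable (fun i => Real.exp (-(2 * π * t * q i))))
    (hT : ∀ t : ℝ, 0 < t → Tt q t⁻¹ = t * Tt q t) :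
    IntegrableOn (fun t : ℝ => (Tt q t - 1) * t ^ (-(1 / 2) : ℝ)) (Ioi 1) ∧
    HasSum (fun i => if i = i0 then 0 else Ek (q i))
      ((∫ t in Ioi (1 : ℝ), (Tt q t - 1) * t ^ (-(1 / 2) : ℝ)) - 2) := by
  have hpi := Real.pi_pos
  obtain ⟨c, hc, hmin⟩ := exists_min q i0 hq (hs 1 one_pos)
  have hrp : ∀ t : ℝ, t ∈ Ioi (1 : ℝ) → 0 ≤ t ^ (-(1 / 2) : ℝ) ∧ t ^ (-(1 / 2) : ℝ) ≤ 1 := by
    intro t ht
    rw [mem_Ioi] at ht
    exact ⟨(Real.rpow_pos_of_pos (by linarith) _).le,
      Real.rpow_le_one_of_one_le_of_nonpos ht.le (by norm_num)⟩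
  have hTsub : ∀ t : ℝ, 0 < t → Tt q t - 1 =
      ∑' i, (if i = i0 then 0 else Real.exp (-(2 * π * t * q i))) := by
    intro t ht
    have := (hs t ht).tsum_eq_add_tsum_ite i0
    rw [h0] at this
    unfold Tt
    rw [this]
    simp
  have hsite : ∀ t : ℝ, 0 < t → Summable (fun i =>
      (if i = i0 then 0 else Real.exp (-(2 * π * t * q i)))) := by
    intro t ht
    refine Summable.of_nonneg_of_le ?_ ?_ (hs t ht)
    · intro i; split_ifs
      · exact le_refl _
      · exact (Real.exp_pos _).le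
    · intro i; split_ifs
      · exact (Real.exp_pos _).le
      · exact le_refl _
  -- the summands
  set F : ι → ℝ → ℝ := fun i t =>
    (if i = i0 then 0 else Real.exp (-(2 * π * t * q i))) * t ^ (-(1 / 2) : ℝ) with hF
  have hrpc : ContinuousOn (fun t : ℝ => t ^ (-(1 / 2) : ℝ)) (Ioi 1) := by
    intro t ht
    rw [mem_Ioi] at ht
    exact (Real.continuousAt_rpow_const t _ (Or.inl (by linarith))).continuousWithinAt
  have hFmeas : ∀ i, AEStronglyMeasurable (F i) (volume.restrict (Ioi (1 : ℝ))) := by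
    intro i
    refine ContinuousOn.aestronglyMeasurable ?_ measurableSet_Ioi
    simp only [hF]
    refine ContinuousOn.mul ?_ hrpc
    by_cases h : i = i0
    · simp only [if_pos h]; exact continuousOn_const
    · simp only [if_neg h]
      apply Continuous.continuousOn
      fun_prop
  have hFnn : ∀ i t, t ∈ Ioi (1 : ℝ) → 0 ≤ F i t := by
    intro i t ht
    simp only [hF]
    apply mul_nonneg
    · split_ifs
      · exact le_refl _
      · exact (Real.exp_pos _).le
    · exact (hrp t ht).1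
  have hexpint : ∀ i, i ≠ i0 →
      IntegrableOn (fun t : ℝ => Real.exp ((-(2 * π * q i)) * t)) (Ioi 1) := by
    intro i hi
    refine integrableOn_exp_mul_Ioi ?_ 1
    have := hq i hi
    have : 0 < 2 * π * q i := by positivity
    linarith
  have hFle : ∀ i, i ≠ i0 → ∀ t, t ∈ Ioi (1 : ℝ) → F i t ≤ Real.exp ((-(2 * π * q i)) * t) := by
    intro i hi t ht
    simp only [hF, if_neg hi]
    have e : -(2 * π * t * q i) = (-(2 * π * q i)) * t := by ring
    rw [e]
    calc Real.exp ((-(2 * π * q i)) * t) * t ^ (-(1 / 2) : ℝ)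
        ≤ Real.exp ((-(2 * π * q i)) * t) * 1 :=
          mul_le_mul_of_nonneg_left (hrp t ht).2 (Real.exp_pos _).le
      _ = _ := mul_one _
  have hFint : ∀ i, IntegrableOn (F i) (Ioi 1) := by
    intro i
    by_cases h : i = i0
    · have : F i = fun _ => 0 := by
        funext t; simp only [hF, if_pos h, zero_mul]
      rw [this]
      exact integrableOn_zero
    · refine Integrable.mono' (hexpint i h) (hFmeas i) ?_
      rw [ae_restrict_iff' measurableSet_Ioi]
      filter_upwards with t ht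
      rw [Real.norm_of_nonneg (hFnn i t ht)]
      exact hFle i h t ht
  have hFnorm : Summable (fun i => ∫ t in Ioi (1 : ℝ), ‖F i t‖) := by
    refine Summable.of_nonneg_of_le (fun i => integral_nonneg (fun t => norm_nonneg _)) ?_
      ((hsite 1 one_pos).mul_left (1 / (2 * π * c)))
    intro i
    by_cases h : i = i0
    · have : F i = fun _ => 0 := by
        funext t; simp only [hF, if_pos h, zero_mul]
      rw [this]
      simp [h]
    · rw [if_neg h]
      have h1 : ∫ t in Ioi (1 : ℝ), ‖F i t‖ ≤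
          ∫ t in Ioi (1 : ℝ), Real.exp ((-(2 * π * q i)) * t) := by
        refine setIntegral_mono_on (hFint i).norm (hexpint i h) measurableSet_Ioi ?_
        intro t ht
        rw [Real.norm_of_nonneg (hFnn i t ht)]
        exact hFle i h t ht
      have hqi := hq i h
      have hpos : 0 < 2 * π * q i := by positivity
      rw [integral_exp_mul_Ioi (by linarith) 1] at h1
      refine h1.trans ?_
      have e1 : -Real.exp (-(2 * π * q i) * 1) / -(2 * π * q i) =
          Real.exp (-(2 * π * 1 * q i)) / (2 * π * q i) := by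
        rw [neg_div_neg_eq]
        congr 2
        ring
      rw [e1, one_div, div_eq_inv_mul]
      apply mul_le_mul_of_nonneg_right _ (Real.exp_pos _).le
      apply inv_anti₀ (by positivity)
      have := hmin i h
      nlinarith
  have hsumint := hasSum_integral_of_summable_integral_norm (μ := volume.restrict (Ioi (1 : ℝ)))
    hFint hFnorm
  have htsumF : ∀ t : ℝ, t ∈ Ioi (1 : ℝ) → ∑' i, F i t = (Tt q t - 1) * t ^ (-(1 / 2) : ℝ) := by
    intro t ht
    rw [mem_Ioi] at ht
    simp only [hF]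
    rw [tsum_mul_right, hTsub t (by linarith)]
  have hinteq : ∫ t in Ioi (1 : ℝ), (∑' i, F i t) =
      ∫ t in Ioi (1 : ℝ), (Tt q t - 1) * t ^ (-(1 / 2) : ℝ) :=
    setIntegral_congr_fun measurableSet_Ioi htsumF
  rw [hinteq] at hsumint
  refine ⟨?_, ?_⟩
  · -- integrability
    have hTc : ContinuousOn (Tt q) (Ioi 1) := by
      intro t ht
      rw [mem_Ioi] at ht
      exact (hasDeriv q i0 h0 hq hs t (by linarith)).1.continuousAt.continuousWithinAt
    have hmeas : AEStronglyMeasurable (fun t : ℝ => (Tt q t - 1) * t ^ (-(1 / 2) : ℝ))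
        (volume.restrict (Ioi (1 : ℝ))) :=
      ContinuousOn.aestronglyMeasurable ((hTc.sub continuousOn_const).mul hrpc) measurableSet_Ioi
    set K := ∑' i, (if i = i0 then 0 else Real.exp (-(2 * π * 1 * q i))) with hK
    have hdom : IntegrableOn (fun t : ℝ => (K * Real.exp (2 * π * c)) *
        Real.exp ((-(2 * π * c)) * t)) (Ioi 1) := by
      apply Integrable.const_mul
      refine integrableOn_exp_mul_Ioi ?_ 1
      have : 0 < 2 * π * c := by positivity
      linarith
    refine Integrable.mono' hdom hmeas ?_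
    rw [ae_restrict_iff' measurableSet_Ioi]
    filter_upwards with t ht
    have ht1 : 1 < t := ht
    have hT0 : 0 ≤ Tt q t - 1 := by
      rw [hTsub t (by linarith)]
      apply tsum_nonneg
      intro i; split_ifs
      · exact le_refl _
      · exact (Real.exp_pos _).le
    rw [norm_mul, Real.norm_of_nonneg hT0, Real.norm_of_nonneg (hrp t ht).1]
    have h1 : (Tt q t - 1) * t ^ (-(1 / 2) : ℝ) ≤ (Tt q t - 1) * 1 :=
      mul_le_mul_of_nonneg_left (hrp t ht).2 hT0
    rw [mul_one] at h1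
    refine h1.trans ?_
    rw [hTsub t (by linarith), mul_assoc K, hK, ← tsum_mul_right]
    refine Summable.tsum_le_tsum ?_ (hsite t (by linarith)) ((hsite 1 one_pos).mul_right _)
    intro i
    by_cases h : i = i0
    · simp [h]
    · simp only [if_neg h]
      rw [← Real.exp_add, ← Real.exp_add]
      apply Real.exp_le_exp.mpr
      have hm := hmin i h
      have : 0 ≤ (q i - c) * (t - 1) := mul_nonneg (by linarith) (by linarith)
      nlinarith
  · obtain ⟨hz1, hz2⟩ := key_zero q i0 h0 hq hs hT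
    have hz3 : HasSum (fun i => (if i = i0 then 0 else
        (1 - 4 * π * q i) * Real.exp (-(2 * π * q i)))) (-1) := by
      have hh := hz1.tsum_eq_add_tsum_ite i0
      rw [hz2, h0] at hh
      have hsum' : Summable (fun i => (if i = i0 then 0 else
          (1 - 4 * π * q i) * Real.exp (-(2 * π * q i)))) := by
        have h8 := hz1.hasSum.update i0 0
        refine h8.summable.congr ?_
        intro i
        simp only [Function.update_apply]
      have h9 := hsum'.hasSum
      have h10 : ∑' i, (if i = i0 then 0 else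
          (1 - 4 * π * q i) * Real.exp (-(2 * π * q i))) = -1 := by
        have e : (1 - 4 * π * 0) * Real.exp (-(2 * π * 0)) = 1 := by simp
        rw [e] at hh
        linarith
      rw [h10] at h9
      exact h9
    have hfin := hsumint.add (hz3.mul_left 2)
    have e2 : (∫ t in Ioi (1 : ℝ), (Tt q t - 1) * t ^ (-(1 / 2) : ℝ)) + 2 * (-1) =
        (∫ t in Ioi (1 : ℝ), (Tt q t - 1) * t ^ (-(1 / 2) : ℝ)) - 2 := by ring
    rw [e2] at hfin
    have e3 : (fun i => if i = i0 then 0 else Ek (q i)) = fun i =>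
        (∫ t in Ioi (1 : ℝ), F i t) + 2 * (if i = i0 then 0 else
        (1 - 4 * π * q i) * Real.exp (-(2 * π * q i))) := by
      funext i
      by_cases h : i = i0
      · simp [h, hF]
      · simp only [if_neg h, hF, Ek]
        have e4 : ∀ t : ℝ, Real.exp (-(2 * π * q i * t)) = Real.exp (-(2 * π * t * q i)) := by
          intro t
          congr 2
          ring
        simp only [e4]
        ring
    rw [e3]
    exact hfin

end main

end Pool.Agent.H99.CN.ZTHx

namespace Pool.Agent.H99.CN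

open Pool.Agent.H31.CN ZTHx

theorem pf_ZTH (hTHE : T_THE) (hQDV : T_QDV) : T_ZTH := by
  intro A B Δ hA hΔ
  set q : ℤ × ℤ → ℝ := fun v => qd A B Δ v / Real.sqrt Δ with hq
  have hsq : 0 < Real.sqrt Δ := Real.sqrt_pos.mpr hΔ
  have h0 : q 0 = 0 := by
    simp [hq, qd]
  have hqpos : ∀ v, v ≠ 0 → 0 < q v := by
    intro v hv
    exact div_pos ((hQDV.1 A B Δ v hA hΔ).2 hv) hsq
  have hs : ∀ t : ℝ, 0 < t → Summable (fun v => Real.exp (-(2 * π * t * q v))) :=
    fun t ht => (hTHE A B Δ t hA hΔ ht).1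
  have hTh : ∀ t, Th A B Δ t = Tt q t := fun t => rfl
  have hT : ∀ t : ℝ, 0 < t → Tt q t⁻¹ = t * Tt q t := fun t ht => (hTHE A B Δ t hA hΔ ht).2
  obtain ⟨h1, h2⟩ := main_sum q 0 h0 hqpos hs hT
  have hterm : (fun v : ℤ × ℤ => Vk (qd A B Δ v / Real.sqrt Δ) / Real.sqrt (qd A B Δ v)) =
      fun v => (Real.sqrt 2 * Δ ^ (-(1 / 4) : ℝ)) * (if v = 0 then 0 else Ek (q v)) := by
    funext v
    by_cases hv : v = 0
    · subst hv
      have : qd A B Δ 0 = 0 := by simp [qd]
      rw [this]
      simp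
    · rw [if_neg hv]
      have hp := (hQDV.1 A B Δ v hA hΔ).2 hv
      unfold Vk
      have e1 : Real.sqrt (2 * (qd A B Δ v / Real.sqrt Δ)) =
          Real.sqrt 2 * Real.sqrt (qd A B Δ v) / Real.sqrt (Real.sqrt Δ) := by
        rw [Real.sqrt_mul (by norm_num), Real.sqrt_div hp.le, mul_div_assoc]
      have e2 : Δ ^ (-(1 / 4) : ℝ) = (Real.sqrt (Real.sqrt Δ))⁻¹ := by
        rw [Real.rpow_neg hΔ.le, Real.sqrt_eq_rpow, Real.sqrt_eq_rpow, ← Real.rpow_mul hΔ.le]
        norm_num
      rw [e1, e2]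
      have hsp : Real.sqrt (qd A B Δ v) ≠ 0 := (Real.sqrt_pos.mpr hp).ne'
      have hss : Real.sqrt (Real.sqrt Δ) ≠ 0 := (Real.sqrt_pos.mpr hsq).ne'
      simp only [hq]
      field_simp
  have h3 := h2.mul_left (Real.sqrt 2 * Δ ^ (-(1 / 4) : ℝ))
  refine ⟨?_, h1, ?_⟩
  · rw [hterm]
    exact h3.summable
  · unfold zf
    rw [hterm]
    exact h3.tsum_eq

end Pool.Agent.H99.CN
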