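import Pool.Agent.H31.CN.T6

/-!
# (ORD) the order of the class of a prime ideal of small norm
-/

set_option autoImplicit false

open NumberField
open scoped nonZeroDivisors

namespace Pool.Agent.H99.CN

open Pool.Agent.H31.CN

/-- (ORD) the order of the class of a prime ideal of small norm. -/
theorem pf_ORD (hSPI : T_SPI) (hPRN : T_PRN) : T_ORD := by
  intro D K _ _ hD hD4 hfin hdis p hp hchi
  obtain ⟨P, P', hP, hP', hne, hN, hN', hPP⟩ := hSPI D K hD hD4 hfin hdis p hp hchi
  have hP0 : P ≠ 0 := by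
    intro h0
    rw [h0] at hN
    simp only [map_zero] at hN
    exact hp.pos.ne hN
  have hP0' : P' ≠ 0 := by
    intro h0
    rw [h0] at hN'
    simp only [map_zero] at hN'
    exact hp.pos.ne hN'
  refine ⟨ClassGroup.mk0 ⟨P, mem_nonZeroDivisors_of_ne_zero hP0⟩, fun j hj hjD h1 => ?_⟩
  rw [← map_pow, ClassGroup.mk0_eq_one_iff] at h1
  obtain ⟨⟨α, hα⟩⟩ := h1
  have hα' : P ^ (2 * j) = Ideal.span {α} := by
    rw [← Ideal.submodule_span_eq, ← hα]
    rfl
  have hnα : Ideal.absNorm (Ideal.span {α}) = p ^ (2 * j) := by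
    rw [← hα', map_pow, hN]
  obtain ⟨n, hn⟩ := hPRN D K hD hD4 hfin hdis α (by rw [hnα]; exact hjD)
  have h2 : Ideal.absNorm (Ideal.span {α}) = n.natAbs ^ 2 := by
    rw [Ideal.absNorm_span_singleton, hn]
    have h3 : Algebra.norm ℤ (n : 𝓞 K) = n ^ 2 := by
      have h4 := Algebra.norm_algebraMap (S := 𝓞 K) (n : ℤ)
      rw [RingOfIntegers.rank, hfin] at h4
      simpa using h4
    rw [h3, Int.natAbs_pow]
  have h5 : n.natAbs = p ^ j := by
    have h6 : n.natAbs ^ 2 = (p ^ j) ^ 2 := by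
      rw [← h2, hnα, ← pow_mul, mul_comm j 2]
    exact Nat.pow_left_injective (n := 2) (by norm_num) h6
  have h7 : Ideal.span {α} = Ideal.span {(p : 𝓞 K)} ^ j := by
    rw [Ideal.span_singleton_pow, hn]
    have h8 : Ideal.span {((n : ℤ) : 𝓞 K)} = Ideal.span {((n.natAbs : ℕ) : 𝓞 K)} := by
      rcases Int.natAbs_eq n with h | h
      · conv_lhs => rw [h]
        simp
      · conv_lhs => rw [h]
        rw [Int.cast_neg, Ideal.span_singleton_neg]
        simp
    rw [h8, h5]
    push_cast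
    rfl
  have h9 : P ^ j * P ^ j = P ^ j * P' ^ j := by
    rw [← mul_pow P P', hPP, ← h7, ← hα', ← pow_add]
    congr 1
    omega
  have h10 : P ^ j = P' ^ j := mul_left_cancel₀ (pow_ne_zero j hP0) h9
  have h11 : P ∣ P' ^ j := by
    rw [← h10]
    exact dvd_pow_self P (by omega)
  have hPp : Prime P := Ideal.prime_of_isPrime hP0 hP
  have h12 : P ∣ P' := hPp.dvd_of_dvd_pow h11
  have h13 : P' ≤ P := Ideal.le_of_dvd h12
  have hmax : P'.IsMaximal := hP'.isMaximal hP0'
  exact hne (hmax.eq_of_le hP.ne_top h13).symm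

end Pool.Agent.H99.CN
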