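import Pool.Agent.H31.CN.T6
import Pool.Agent.H46.CN.OB3

/-!
# (PRN) elements of small norm are rational
-/

set_option autoImplicit false

open NumberField
open scoped nonZeroDivisors

namespace Pool.Agent.H99.CN

open Pool.Agent.H31.CN Pool.Agent.H46.CN

/-- an element of small norm has no second coordinate -/
lemma prn_coord (D : ℕ) (K : Type) [Field K] [NumberField K] (σ : K →+* ℂ) (hD4 : D % 4 = 3)
    (hfin : Module.finrank ℚ K = 2) (α₀ β₀ : 𝓞 K)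
    (h : OB K σ ⊤ α₀ β₀ (1, 1, ((D : ℤ) + 1) / 4)) (α : 𝓞 K)
    (hα : 4 * Ideal.absNorm (Ideal.span {α}) < D) :
    ∃ x : ℤ, α = (x : 𝓞 K) * α₀ ∧ (Ideal.absNorm (Ideal.span {α}) : ℤ) = x ^ 2 := by
  obtain ⟨v, hv⟩ := (h.mem α).1 trivial
  have h1 := absNorm_span K σ hfin (OB_im K σ _ α₀ β₀ _ h) α
  have h2 := h.nrm v
  rw [← hv, ← h1, Ideal.absNorm_top] at h2
  have h3 : (Ideal.absNorm (Ideal.span {α}) : ℤ) = val (1, 1, ((D : ℤ) + 1) / 4) v := by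
    rw [Nat.cast_one, one_mul] at h2
    exact_mod_cast h2
  simp only [val, one_mul] at h3
  obtain ⟨x, y⟩ := v
  simp only at h3 hv
  obtain ⟨c, hc⟩ : ∃ c : ℤ, ((D : ℤ) + 1) / 4 = c := ⟨_, rfl⟩
  rw [hc] at h3
  have hc4 : 4 * c = (D : ℤ) + 1 := by omega
  have hα' : 4 * (Ideal.absNorm (Ideal.span {α}) : ℤ) < D := by exact_mod_cast hα
  have hy : y = 0 := by
    by_contra hy
    have h5 : 1 ≤ y ^ 2 := by
      have := sq_nonneg y
      have h2 : y ^ 2 ≠ 0 := pow_ne_zero 2 hy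
      omega
    have h6 : 4 * (x ^ 2 + x * y + c * y ^ 2) = (2 * x + y) ^ 2 + (D : ℤ) * y ^ 2 := by
      have : 4 * (x ^ 2 + x * y + c * y ^ 2) = 4 * x ^ 2 + 4 * x * y + (4 * c) * y ^ 2 := by ring
      rw [this, hc4]
      ring
    have h7 := sq_nonneg (2 * x + y)
    have h8 : (D : ℤ) * 1 ≤ (D : ℤ) * y ^ 2 := mul_le_mul_of_nonneg_left h5 (by positivity)
    rw [h3, h6] at hα'
    omega
  subst hy
  refine ⟨x, ?_, ?_⟩
  · rw [hv]
    simp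
  · rw [h3]
    ring

/-- (PRN) elements of small norm are rational. -/
theorem pf_PRN (hOB0 : T_OB0) : T_PRN := by
  intro D K _ _ hD hD4 hfin hdis α hα
  obtain ⟨σ⟩ : Nonempty (K →+* ℂ) := inferInstance
  obtain ⟨α₀, β₀, h⟩ := hOB0 D K σ hD hD4 hfin hdis
  obtain ⟨x, hx, -⟩ := prn_coord D K σ hD4 hfin α₀ β₀ h α hα
  have h1 : Ideal.absNorm (Ideal.span {(1 : 𝓞 K)}) = 1 := by
    rw [Ideal.span_singleton_one, Ideal.absNorm_top]
  obtain ⟨y, hy, hy2⟩ := prn_coord D K σ hD4 hfin α₀ β₀ h 1 (by rw [h1]; omega)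
  rw [h1, Nat.cast_one] at hy2
  have hy3 : (y : 𝓞 K) * (y : 𝓞 K) = 1 := by
    have : y * y = 1 := by rw [← sq, ← hy2]
    exact_mod_cast congrArg (fun z : ℤ => (z : 𝓞 K)) this
  refine ⟨x * y, ?_⟩
  have h2 : α₀ = (y : 𝓞 K) := by
    calc α₀ = ((y : 𝓞 K) * (y : 𝓞 K)) * α₀ := by rw [hy3, one_mul]
      _ = (y : 𝓞 K) * ((y : 𝓞 K) * α₀) := by ring
      _ = (y : 𝓞 K) := by rw [← hy, mul_one]
  rw [hx, h2]
  push_cast
  rfl

end Pool.Agent.H99.CN
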